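import Mathlib

set_option autoImplicit false
open MvPolynomial

namespace Pool.Agent.H.MP_8fff0f_ag

abbrev G (K : ℕ) := ZMod (3 * K + 3) × ZMod (3 * K + 3)

def da (K l : ℕ) : ℕ := if 3 * K < l then 0 else l
def ds (K l : ℕ) : ℕ := if l < 3 * K ∧ l % 3 = 0 then 2 else 1
def dt (K l : ℕ) : ℕ := if l < 3 * K ∧ l % 3 = 0 then 2 else if l < 3 * K ∧ l % 3 = 1 then 3 else 1
def ph (K i : ℕ) : ℤ := (if i % 3 = 0 then 3 else 2) * 2 ^ (K - i / 3)

theorem bd (K l : ℕ) : da K l + ds K l + dt K l < 3 * K + 3 := by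
  unfold da ds dt; split_ifs <;> omega

theorem ph0 (K k : ℕ) : ph K (3 * k) = 3 * 2 ^ (K - k) := by simp [ph]
theorem ph1 (K k : ℕ) : ph K (3 * k + 1) = 2 * 2 ^ (K - k) := by
  simp [ph, show (3 * k + 1) / 3 = k by omega]
theorem ph2 (K k : ℕ) : ph K (3 * k + 2) = 2 * 2 ^ (K - k) := by
  simp [ph, show (3 * k + 2) / 3 = k by omega]

theorem d0 {K k : ℕ} (h : k < K) : da K (3 * k) = 3 * k ∧ ds K (3 * k) = 2 ∧ dt K (3 * k) = 2 := by
  unfold da ds dt; split_ifs <;> omega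
theorem d1 {K k : ℕ} (h : k < K) :
    da K (3 * k + 1) = 3 * k + 1 ∧ ds K (3 * k + 1) = 1 ∧ dt K (3 * k + 1) = 3 := by
  unfold da ds dt; split_ifs <;> omega
theorem d2 {K k : ℕ} (h : k < K) :
    da K (3 * k + 2) = 3 * k + 2 ∧ ds K (3 * k + 2) = 1 ∧ dt K (3 * k + 2) = 1 := by
  unfold da ds dt; split_ifs <;> omega
theorem d3 (K : ℕ) : da K (3 * K) = 3 * K ∧ ds K (3 * K) = 1 ∧ dt K (3 * K) = 1 := by
  unfold da ds dt; split_ifs <;> omega
theorem d4 {K l : ℕ} (h : 3 * K < l) : da K l = 0 ∧ ds K l = 1 ∧ dt K l = 1 := by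
  unfold da ds dt; split_ifs <;> omega

theorem delta (K l : ℕ) : ph K (da K l + ds K l + dt K l) + (ph K (da K l) - ph K (da K l + ds K l)) -
    ph K (da K l + dt K l) = if l = 3 * K then 1 else if 3 * K < l then 2 ^ K else 0 := by
  split_ifs with h1 h2
  · subst h1
    rw [(d3 K).1, (d3 K).2.1, (d3 K).2.2, add_assoc, ph2, ph1, ph0]; simp
  · rw [(d4 h2).1, (d4 h2).2.1, (d4 h2).2.2]; simp [ph]; ring
  · obtain ⟨k, hk⟩ : ∃ k, l = 3 * k ∨ l = 3 * k + 1 ∨ l = 3 * k + 2 := ⟨l / 3, by omega⟩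
    have h : k < K := by omega
    have e : (2 : ℤ) ^ (K - k) = 2 * 2 ^ (K - (k + 1)) := by
      rw [← pow_succ']; congr 1; omega
    have a0 := ph0 K (k + 1)
    have a1 := ph1 K (k + 1)
    have a2 := ph2 K (k + 1)
    have b0 := ph0 K k
    have b1 := ph1 K k
    have b2 := ph2 K k
    rw [mul_add, mul_one] at a0 a1 a2
    rcases hk with rfl | rfl | rfl
    · rw [(d0 h).1, (d0 h).2.1, (d0 h).2.2]; linear_combination a1 + b0 - 2 * b2 - e
    · rw [(d1 h).1, (d1 h).2.1, (d1 h).2.2]; linear_combination a2 + b1 - b2 - a1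
    · rw [(d2 h).1, (d2 h).2.1, (d2 h).2.2]; linear_combination a1 + b2 - 2 * a0 + 2 * e

def ch (K : ℕ) : Fin 3 → G K → Prop :=
  ![fun x => x.2 = 0, fun x => ∃ i : ℕ, (i = 0 ∨ i = ds K x.2.val) ∧ x.1 = -i,
    fun x => ∃ j : ℕ, (j = 0 ∨ j = dt K (-x.2).val) ∧ x.1 = -(da K (-x.2).val + j : ℕ)]

def w (K : ℕ) : Fin 3 → G K → ℤ :=
  ![fun x => ph K x.1.val, fun x => ph K (da K x.2.val) - ph K ((da K x.2.val : ZMod _) - x.1).val,
    fun x => -ph K (-x.1).val]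

def E0 (K l i j : ℕ) : G K := ((da K l + i + j : ℕ), 0)
def E1 (K l i : ℕ) : G K := (-(i : ℕ), l)
def E2 (K l j : ℕ) : G K := (-(da K l + j : ℕ), -(l : ℕ))

theorem wE {K l i j : ℕ} (hl : l < 3 * K + 3) (hi : i = 0 ∨ i = ds K l) (hj : j = 0 ∨ j = dt K l) :
    w K 0 (E0 K l i j) + w K 1 (E1 K l i) + w K 2 (E2 K l j) =
      if i = 0 ∨ j = 0 then 0 else if l = 3 * K then 1 else if 3 * K < l then 2 ^ K else 0 := by
  have := bd K l
  simp only [w, E0, E1, E2, Matrix.cons_val, sub_neg_eq_add, neg_neg, ← Nat.cast_add]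
  rw [ZMod.val_natCast_of_lt hl, ZMod.val_natCast_of_lt (by omega), ZMod.val_natCast_of_lt (by omega),
    ZMod.val_natCast_of_lt (by omega)]
  by_cases h : i = 0 ∨ j = 0
  · rw [if_pos h]; rcases h with rfl | rfl <;> simp
  · rw [if_neg h, ← delta, hi.resolve_left fun e => h (.inl e), hj.resolve_left fun e => h (.inr e)]
    ring

theorem chE {K l i j : ℕ} (hl : l < 3 * K + 3) (hi : i = 0 ∨ i = ds K l) (hj : j = 0 ∨ j = dt K l) :
    ch K 0 (E0 K l i j) ∧ ch K 1 (E1 K l i) ∧ ch K 2 (E2 K l j) := by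
  simp only [ch, E0, E1, E2, Matrix.cons_val, neg_neg, ZMod.val_natCast_of_lt hl]
  exact ⟨trivial, ⟨i, hi, rfl⟩, j, hj, rfl⟩

theorem sE (K l i j : ℕ) : E0 K l i j + E1 K l i + E2 K l j = 0 := by
  ext <;> simp [E0, E1, E2]
  ring

theorem face {K : ℕ} {x y z : G K} (h : x + y + z = 0) (hx : ch K 0 x) (hy : ch K 1 y) (hz : ch K 2 z) :
    w K 0 x + w K 1 y + w K 2 z = 1 ∨ 2 ^ K ∣ w K 0 x + w K 1 y + w K 2 z := by
  obtain ⟨i, hi, ei⟩ := hy
  obtain ⟨j, hj, ej⟩ := hz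
  have e : -z.2 = y.2 := by
    have := congrArg Prod.snd h
    simp only [Prod.snd_add, show x.2 = 0 from hx, Prod.snd_zero] at this
    linear_combination -this
  rw [e] at hj ej
  have ey : y = E1 K y.2.val i := Prod.ext ei (ZMod.natCast_zmod_val _).symm
  have ez : z = E2 K y.2.val j := Prod.ext ej (by simp [E2, ← e])
  have ex : x = E0 K y.2.val i j := by
    have := sE K y.2.val i j
    rw [← ey, ← ez] at this
    linear_combination h - this
  have := wE (ZMod.val_lt y.2) hi hj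
  rw [← ex, ← ey, ← ez] at this
  rw [this]
  split_ifs <;> simp

open Classical in
noncomputable def P (K : ℕ) {A : Type} [CommRing A] (T : A) (x y z : G K) : A :=
  if ch K 0 x ∧ ch K 1 y ∧ ch K 2 z then (if w K 0 x + w K 1 y + w K 2 z = 1 then T else 1) else 0

theorem PE {K l i j : ℕ} (hK : 0 < K) (hl : l < 3 * K + 3) (hi : i = 0 ∨ i = ds K l)
    (hj : j = 0 ∨ j = dt K l) : P K (2 : ℂ) (E0 K l i j) (E1 K l i) (E2 K l j) =
      if (i ≠ 0 ∧ j ≠ 0) ∧ l = 3 * K then 2 else 1 := by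
  have : (2 : ℤ) ^ K ≠ 1 := (one_lt_pow₀ one_lt_two hK.ne').ne'
  rw [P, if_pos (chE hl hi hj), wE hl hi hj]
  split_ifs <;> first | rfl | omega | tauto

section
variable {K : ℕ} {F : Type} (v0 v1 v2 : F → G K)

noncomputable abbrev ph' : MvPolynomial F ℂ →ₐ[ℂ] MvPolynomial (Fin 3 × G K) ℂ :=
  aeval fun g => X (0, v0 g) * X (1, v1 g) * X (2, v2 g)

noncomputable abbrev ev : MvPolynomial F ℂ →ₐ[ℂ] ℂ := aeval fun g => P K (2 : ℂ) (v0 g) (v1 g) (v2 g)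

theorem vanish (hv : ∀ g, v0 g + v1 g + v2 g = 0) (q : MvPolynomial F ℂ) (hq : ph' v0 v1 v2 q = 0)
    (hd : q.totalDegree < 2 ^ K) : ev v0 v1 v2 q = 0 := by
  classical
  set Q := aeval (fun g => P K (Polynomial.X : Polynomial ℂ) (v0 g) (v1 g) (v2 g)) q with hQ
  have e : ∀ T : ℂ, Q.eval T = aeval (fun g => P K T (v0 g) (v1 g) (v2 g)) q := fun T => by
    rw [← Polynomial.coe_aeval_eq_eval, hQ, ← AlgHom.comp_apply, comp_aeval]
    congr 2
    ext g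
    simp only [P]
    split_ifs <;> simp
  have d : Q.natDegree ≤ q.totalDegree * 1 := aeval_natDegree_le q le_rfl _ fun g => by
    simp only [P]
    split_ifs <;> simp
  rw [← e, Polynomial.eq_zero_of_natDegree_lt_card_of_eval_eq_zero' Q
    (Polynomial.nthRootsFinset (2 ^ K) 1) (fun z hz => ?ga) ?gb, Polynomial.eval_zero]
  case ga =>
    rw [Polynomial.mem_nthRootsFinset (by positivity)] at hz
    have z0 : z ≠ 0 := by rintro rfl; simp at hz
    have := congrArg (aeval fun v : Fin 3 × G K => if ch K v.1 v.2 then z ^ w K v.1 v.2 else 0) hq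
    rw [map_zero, ← AlgHom.comp_apply, comp_aeval] at this
    rw [e, ← this]
    congr 2
    ext g
    simp only [P, map_mul, aeval_X]
    by_cases h : ch K 0 (v0 g) ∧ ch K 1 (v1 g) ∧ ch K 2 (v2 g)
    · rw [if_pos h, if_pos h.1, if_pos h.2.1, if_pos h.2.2, ← zpow_add₀ z0, ← zpow_add₀ z0]
      split_ifs with h1
      · rw [h1, zpow_one]
      · obtain ⟨c, hc⟩ := (face (hv g) h.1 h.2.1 h.2.2).resolve_left h1
        rw [hc, zpow_mul, show (2 : ℤ) ^ K = (2 ^ K : ℕ) by simp, zpow_natCast, hz, one_zpow]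
    · rw [if_neg h]
      split_ifs <;> first | simp; done | tauto
  case gb =>
    rw [(Complex.isPrimitiveRoot_exp (2 ^ K) (by positivity)).card_nthRootsFinset]
    omega

noncomputable abbrev Y (K i : ℕ) : MvPolynomial (Fin 3 × G K) ℂ := X (0, ((i : ZMod _), 0))

theorem lev (hK : 0 < K) (mk : ∀ x y z, x + y + z = 0 → ∃ g, v0 g = x ∧ v1 g = y ∧ v2 g = z) {l a s t : ℕ}
    (hl : l < 3 * K + 3) (h : da K l = a ∧ ds K l = s ∧ dt K l = t) :
    ∃ u v b, ph' v0 v1 v2 u = b * Y K a * Y K (a + s + t) ∧ ph' v0 v1 v2 v = b * Y K (a + s) * Y K (a + t) ∧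
      ev v0 v1 v2 v = 1 ∧ ev v0 v1 v2 u = if l = 3 * K then 2 else 1 := by
  obtain ⟨rfl, rfl, rfl⟩ := h
  choose e e0 e1 e2 using fun i j => mk _ _ _ (sE K l i j)
  have s0 : ds K l ≠ 0 := by unfold ds; split_ifs <;> simp
  have t0 : dt K l ≠ 0 := by unfold dt; split_ifs <;> simp
  refine ⟨X (e 0 0) * X (e (ds K l) (dt K l)), X (e (ds K l) 0) * X (e 0 (dt K l)),
    X (1, E1 K l 0) * X (1, E1 K l (ds K l)) * X (2, E2 K l 0) * X (2, E2 K l (dt K l)), ?_, ?_, ?_, ?_⟩ <;>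
    simp only [map_mul, aeval_X, e0, e1, e2]
  · simp only [E0, add_zero]; ring
  · simp only [E0, add_zero]; ring
  · rw [PE hK hl (.inr rfl) (.inl rfl), PE hK hl (.inl rfl) (.inr rfl)]; simp
  · rw [PE hK hl (.inl rfl) (.inl rfl), PE hK hl (.inr rfl) (.inr rfl)]; simp [s0, t0]

theorem bin (hK : 0 < K) (mk : ∀ x y z, x + y + z = 0 → ∃ g, v0 g = x ∧ v1 g = y ∧ v2 g = z) :
    ∃ f, ph' v0 v1 v2 f = 0 ∧ ev v0 v1 v2 f ≠ 0 := by
  have : ∀ k ≤ K, ∃ u v, ev v0 v1 v2 u = 1 ∧ ev v0 v1 v2 v = 1 ∧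
      ph' v0 v1 v2 u * (Y K (3 * k) * Y K (3 * k + 2)) ^ 2 ^ k = ph' v0 v1 v2 v * (Y K (3 * k + 1) ^ 2) ^ 2 ^ k := by
    intro k hk
    induction k with
    | zero =>
      obtain ⟨u, v, b, h1, h2, h3, h4⟩ := lev v0 v1 v2 hK mk (l := 3 * K + 1) (by omega) (d4 (by omega))
      refine ⟨v, u, h3, by simpa using h4, ?_⟩
      rw [h1, h2]; ring
    | succ k ih =>
      obtain ⟨u, v, hu, hv, h⟩ := ih (by omega)
      obtain ⟨p1, m1, b1, x1, y1, z1, w1⟩ := lev v0 v1 v2 hK mk (by omega) (d0 hk)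
      obtain ⟨p2, m2, b2, x2, y2, z2, w2⟩ := lev v0 v1 v2 hK mk (by omega) (d1 hk)
      obtain ⟨p3, m3, b3, x3, y3, z3, w3⟩ := lev v0 v1 v2 hK mk (by omega) (d2 hk)
      rw [if_neg (by omega)] at w1 w2 w3
      refine ⟨u * (p1 * m2 ^ 2 * p3) ^ 2 ^ k, v * (m1 * p2 ^ 2 * m3) ^ 2 ^ k, 
        by simp only [map_mul, map_pow, hu, w1, z2, w3, one_pow, one_mul],
        by simp only [map_mul, map_pow, hv, z1, w2, z3, one_pow, one_mul], ?_⟩
      refine mul_right_cancel₀ (pow_ne_zero (2 ^ k) (pow_ne_zero 2 (X_ne_zero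
        ((0 : Fin 3), ((((3 * k + 1 : ℕ) : ZMod _), 0) : G K))))) ?_
      simp only [map_mul, map_pow, x1, x2, x3, y1, y2, y3, pow_succ 2 k, mul_add, add_assoc,
        Nat.reduceAdd, Nat.reduceMul] at h ⊢
      generalize 2 ^ k = m at h ⊢
      linear_combination (b1 * b2 ^ 2 * b3 * Y K (3 * k + 1) ^ 2 * Y K (3 * k + 2) ^ 2 * Y K (3 * k + 3) ^ 2 *
        Y K (3 * k + 4) ^ 4 * Y K (3 * k + 5) ^ 2) ^ m * h
  obtain ⟨u, v, hu, hv, h⟩ := this K le_rfl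
  obtain ⟨p, m, b, x, y, z, w⟩ := lev v0 v1 v2 hK mk (by omega) (d3 K)
  refine ⟨u * p ^ 2 ^ K - v * m ^ 2 ^ K, ?_, ?_⟩
  · simp only [map_sub, map_mul, map_pow, x, y, add_assoc, Nat.reduceAdd]
    generalize 2 ^ K = m at h ⊢
    linear_combination b ^ m * h
  · simp only [map_sub, map_mul, map_pow, hu, hv, z, w, if_true, one_mul, one_pow, sub_ne_zero]
    exact_mod_cast (one_lt_pow₀ one_lt_two (by positivity)).ne'

end

end Pool.Agent.H.MP_8fff0f_ag
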